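import Pool.Agent.helper17.HH.SpecB

/-!
# Project HH (MP_07c750): row BFX, the fixed set
-/

open scoped Pointwise
open MeasureTheory Set

set_option autoImplicit false

namespace Pool.Agent.HH

noncomputable section

theorem BFX_proof (h : BGR_stmt) : BFX_stmt := by
  intro α μ A V R f hα hα1 hμ hA hR hRc hf hV hμ2
  obtain ⟨A', hA', B', hB', hA'c, hB'c, hz⟩ := h α A R hα hα1 hR hRc
  have hApos : 0 < (A.card : ℝ) := by exact_mod_cast hA.card_pos
  -- differences are in the fixed set
  have key : ∀ a ∈ A', ∀ b ∈ B', f a - f b ∈ V3 V μ := by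
    intro a ha b hb
    have h1 := hz a ha b hb
    set F : Finset (ℤ × ℤ) := (A ×ˢ A).filter fun z => (a, z.2) ∈ R ∧ (z.1, z.2) ∈ R ∧ (z.1, b) ∈ R with hF
    set T : Finset (ℤ × ℤ × ℤ) := (V ×ˢ (V ×ˢ V)).filter fun z => z.1 - z.2.1 + z.2.2 = f a - f b with hT
    have h2 : F.card ≤ 25 * T.card := by
      apply Finset.card_le_mul_card_image_of_maps_to (f := fun z : ℤ × ℤ => (f a - f z.2, f z.1 - f z.2, f z.1 - f b))
      · intro z hzF
        rw [hF, Finset.mem_filter] at hzF
        obtain ⟨-, q1, q2, q3⟩ := hzF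
        rw [hT, Finset.mem_filter, Finset.mem_product, Finset.mem_product]
        exact ⟨⟨hV _ q1, hV _ q2, hV _ q3⟩, by ring⟩
      · intro t _
        have h3 : (F.filter fun z => (f a - f z.2, f z.1 - f z.2, f z.1 - f b) = t) ⊆
            (A.filter fun x => f x = t.2.1 + (f a - t.1)) ×ˢ (A.filter fun y => f y = f a - t.1) := by
          intro z hzz
          rw [Finset.mem_filter, hF, Finset.mem_filter, Finset.mem_product] at hzz
          obtain ⟨⟨⟨z1, z2⟩, -⟩, ht⟩ := hzz
          rw [Finset.mem_product, Finset.mem_filter, Finset.mem_filter]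
          have e1 : f a - f z.2 = t.1 := by rw [← ht]
          have e2 : f z.1 - f z.2 = t.2.1 := by rw [← ht]
          exact ⟨⟨z1, by linarith⟩, z2, by linarith⟩
        refine (Finset.card_le_card h3).trans ?_
        rw [Finset.card_product]
        calc _ ≤ 5 * 5 := Nat.mul_le_mul (hf _) (hf _)
          _ = 25 := by norm_num
    have h4 : μ ≤ (T.card : ℝ) := by
      have h5 : (F.card : ℝ) ≤ 25 * T.card := by exact_mod_cast h2
      have h6 : α ^ 5 / 102400 * (A.card : ℝ) ^ 2 = (α ^ 5 / 4096 * (A.card : ℝ) ^ 2) / 25 := by ring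
      rw [h6] at hμ2
      have h7 : (α ^ 5 / 4096 * (A.card : ℝ) ^ 2) / 25 ≤ T.card := by
        rw [div_le_iff₀ (by norm_num)]
        linarith
      linarith
    have h8 : T.Nonempty := by
      rw [← Finset.card_pos]
      have : (0 : ℝ) < T.card := by linarith
      exact_mod_cast this
    obtain ⟨t, ht⟩ := h8
    unfold V3
    rw [Finset.mem_filter]
    refine ⟨?_, h4⟩
    rw [hT, Finset.mem_filter, Finset.mem_product, Finset.mem_product] at ht
    obtain ⟨⟨t1, t2, t3⟩, t4⟩ := ht
    rw [← t4]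
    exact Finset.add_mem_add (Finset.sub_mem_sub t1 t2) t3
  have hB'pos : 0 < (B'.card : ℝ) := lt_of_lt_of_le (by positivity) hB'c
  have hB'ne : B'.Nonempty := by
    rw [← Finset.card_pos]
    exact_mod_cast hB'pos
  obtain ⟨b0, hb0⟩ := hB'ne
  refine ⟨A', hA', hA'c, ⟨f b0, fun a ha => key a ha b0 hb0⟩, ?_⟩
  -- the image of `B'`
  have hBi : B'.card ≤ 5 * (B'.image f).card := by
    apply Finset.card_le_mul_card_image_of_maps_to (f := f)
    · intro x hx
      exact Finset.mem_image_of_mem f hx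
    · intro k _
      exact (Finset.card_le_card (Finset.filter_subset_filter _ hB')).trans (hf k)
  have hBi' : α * A.card / 30 ≤ ((B'.image f).card : ℝ) := by
    have h1 : (B'.card : ℝ) ≤ 5 * (B'.image f).card := by exact_mod_cast hBi
    linarith
  have hsub : A'.image f - B'.image f ⊆ V3 V μ := by
    intro d hd
    rw [Finset.mem_sub] at hd
    obtain ⟨u, hu, v, hv, rfl⟩ := hd
    rw [Finset.mem_image] at hu hv
    obtain ⟨a, ha, rfl⟩ := hu
    obtain ⟨b, hb, rfl⟩ := hv
    exact key a ha b hb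
  have hruz := Finset.ruzsa_triangle_inequality_sub_sub_sub (A'.image f) (B'.image f) (A'.image f)
  have h1 : (A'.image f - A'.image f).card * (B'.image f).card ≤ (V3 V μ).card * (V3 V μ).card :=
    hruz.trans (Nat.mul_le_mul (Finset.card_le_card hsub) (Finset.card_le_card hsub))
  have h2 : ((A'.image f - A'.image f).card : ℝ) * ((B'.image f).card : ℝ) ≤ ((V3 V μ).card : ℝ) ^ 2 := by
    rw [sq]
    exact_mod_cast h1
  have h3 : ((A'.image f - A'.image f).card : ℝ) * (α * A.card / 30) ≤ ((V3 V μ).card : ℝ) ^ 2 :=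
    (mul_le_mul_of_nonneg_left hBi' (Nat.cast_nonneg _)).trans h2
  have h4 : (0 : ℝ) < α * A.card := by positivity
  rw [div_mul_eq_mul_div, le_div_iff₀ h4]
  linarith

end

end Pool.Agent.HH
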